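import Pool.Agent.Helper32_Simp.Trunc

/-!
# Module CONEF: from the generating function to the lattice point sum
-/

set_option autoImplicit false
set_option linter.unusedSectionVars false

namespace Pool.Agent.Helper30_Simp.H32

open Finset Pool.Agent.Helper6_Mono

section RQ

variable {R S : Type*} [CommRing R] [CommRing S] {z : R} {P : Set (ℕ × ℕ)}

theorem RQ_congr {a b : ℕ → R} (h : RQ z P a) (hab : ∀ m, a m = b m) : RQ z P b := by
  have : a = b := funext hab
  rwa [← this]

theorem RQ_smul (c : R) {a : ℕ → R} (h : RQ z P a) : RQ z P (fun m => c * a m) := by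
  induction h with
  | fin a N h => exact .fin _ N fun m hm => by rw [h m hm, mul_zero]
  | step a u v huv _ ih =>
    refine .step _ u v huv (RQ_congr ih fun m => ?_)
    ring

theorem RQ_map (φ : R →+* S) {a : ℕ → R} (h : RQ z P a) : RQ (φ z) P (fun m => φ (a m)) := by
  induction h with
  | fin a N h => exact .fin _ N fun m hm => by rw [h m hm, map_zero]
  | step a u v huv _ ih =>
    refine .step _ u v huv (RQ_congr ih fun m => ?_)
    rw [map_sub, map_mul, map_pow]

theorem RQ_of_inj (φ : R →+* S) (hφ : Function.Injective φ) {b : ℕ → S} {z' : S}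
    (h : RQ z' P b) (hz : z' = φ z) {a : ℕ → R} (hab : ∀ m, b m = φ (a m)) : RQ z P a := by
  induction h generalizing a with
  | fin b N h =>
    refine .fin _ N fun m hm => hφ ?_
    rw [← hab, h m hm, map_zero]
  | step b u v huv _ ih =>
    refine .step _ u v huv (ih fun m => ?_)
    rw [map_sub, map_mul, map_pow, ← hz, ← hab, ← hab]

theorem RQ_cancel (c : R) (hc : ∀ x, c * x = 0 → x = 0) {b : ℕ → R} (h : RQ z P b)
    {a : ℕ → R} (hab : ∀ m, b m = c * a m) : RQ z P a := by
  induction h generalizing a with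
  | fin b N h =>
    refine .fin _ N fun m hm => hc _ ?_
    rw [← hab, h m hm]
  | step b u v huv _ ih =>
    refine .step _ u v huv (ih fun m => ?_)
    show b (m + v) - z ^ u * b m = _
    rw [hab, hab]
    ring

theorem RQ_toRP (L : Rˣ) {a : ℕ → R} {z : R} (hz : z = Li L) (h : RQ z P a) : RP L P a := by
  subst hz
  induction h with
  | fin a N h => exact .fin _ N h
  | step a u v huv _ ih =>
    refine .step _ u v huv (ih.congr fun m => ?_)
    rw [Units.val_pow_eq_pow_val]

end RQ

variable {σ : Type} [Fintype σ]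

theorem cs_map {R S : Type*} [CommRing R] [CommRing S] (φ : R →+* S) (x : R)
    (M I : Finset (σ →₀ ℕ)) (J : Finset σ) (l m : ℕ) :
    φ (cs x M I J l m) = cs (φ x) M I J l m := by
  classical
  unfold cs
  rw [map_sum]
  refine Finset.sum_congr rfl fun u _ => ?_
  split_ifs
  · rw [map_prod]
    refine Finset.prod_congr rfl fun i _ => ?_
    unfold wt
    split_ifs
    · rw [map_sub, map_pow, map_pow]
    · rw [map_pow]
    · rw [map_pow]
  · rw [map_zero]

open scoped Classical in
/-- the truncated generating function -/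
noncomputable def Gm (M I : Finset (σ →₀ ℕ)) (J : Finset σ) (l m : ℕ) : PowerSeries ℤ :=
  ∑ u : σ → Fin (m + 2), if CellS M I J (fun i => (u i : ℕ)) l ∧ ∀ i, (u i : ℕ) ≤ m then
    PowerSeries.X ^ (∑ i, (u i : ℕ)) else 0

theorem coeff_gf {M I : Finset (σ →₀ ℕ)} {J : Finset σ} {α₀ : σ →₀ ℕ} (hα₀ : α₀ ∈ I)
    (l m e : ℕ) (he : e ≤ m) :
    PowerSeries.coeff e (gf (fun i => α₀ i) {u | CellS M I J u (dot u α₀)} l) =
      PowerSeries.coeff e (Gm M I J l m) := by
  classical
  unfold gf Gm
  rw [PowerSeries.coeff_mk, map_sum]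
  have h1 : ∀ u : σ → Fin (m + 2), PowerSeries.coeff e
      (if CellS M I J (fun i => (u i : ℕ)) l ∧ ∀ i, (u i : ℕ) ≤ m then
        (PowerSeries.X : PowerSeries ℤ) ^ (∑ i, (u i : ℕ)) else 0) =
      if (CellS M I J (fun i => (u i : ℕ)) l ∧ ∀ i, (u i : ℕ) ≤ m) ∧ ∑ i, (u i : ℕ) = e then
        1 else 0 := by
    intro u
    by_cases h : CellS M I J (fun i => (u i : ℕ)) l ∧ ∀ i, (u i : ℕ) ≤ m
    · rw [if_pos h, PowerSeries.coeff_X_pow]
      by_cases h' : ∑ i, (u i : ℕ) = e
      · rw [if_pos h'.symm, if_pos ⟨h, h'⟩]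
      · rw [if_neg (fun h'' => h' h''.symm), if_neg (fun h'' => h' h''.2)]
    · rw [if_neg h, map_zero, if_neg (fun h' => h h'.1)]
  simp only [h1]
  rw [Finset.sum_boole]
  congr 1
  rw [← Fintype.card_coe, ← Nat.card_eq_fintype_card]
  have hcell : ∀ u : σ → ℕ, (CellS M I J u (dot u α₀) ∧ ∑ i, α₀ i * u i = l) ↔
      CellS M I J u l := by
    intro u
    have hd : ∑ i, α₀ i * u i = dot u α₀ := by
      rw [dot_nat]
      exact Finset.sum_congr rfl fun i _ => mul_comm _ _
    rw [hd]
    constructor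
    · rintro ⟨h, h'⟩
      rwa [h'] at h
    · intro h
      have h' := h.eq α₀ hα₀
      exact ⟨by rw [h']; exact h, h'⟩
  have hle : ∀ u : σ → ℕ, ∑ i, u i = e → ∀ i, u i ≤ m := by
    intro u hu i
    refine le_trans ?_ he
    rw [← hu]
    exact Finset.single_le_sum (fun j _ => Nat.zero_le _) (Finset.mem_univ i)
  refine Nat.card_congr ⟨fun u => ⟨fun i => ⟨u.1 i, ?_⟩, ?_⟩, fun u => ⟨fun i => (u.1 i : ℕ), ?_⟩,
    fun u => ?_, fun u => ?_⟩
  · have := hle u.1 u.2.2.2 i
    omega
  · rw [Finset.mem_filter]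
    exact ⟨Finset.mem_univ _, ⟨(hcell _).1 ⟨u.2.1, u.2.2.1⟩, hle u.1 u.2.2.2⟩, u.2.2.2⟩
  · have h := (Finset.mem_filter.1 u.2).2
    have h' := (hcell _).2 h.1.1
    exact ⟨h'.1, h'.2, h.2⟩
  · rfl
  · rfl

/-- the main identity -/
theorem main_identity {M I : Finset (σ →₀ ℕ)} {J : Finset σ} {α₀ : σ →₀ ℕ} (hα₀ : α₀ ∈ I)
    (l : ℕ) :
    (PowerSeries.X : PowerSeries ℤ) ^ (freeV I J).card * cs PowerSeries.X M I J l l =
      (1 - PowerSeries.X) ^ (freeV I J).card *
        gf (fun i => α₀ i) {u | CellS M I J u (dot u α₀)} l := by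
  classical
  ext d
  set m := max l d with hm
  have hlm : l ≤ m := le_max_left _ _
  have hdm : d ≤ m := le_max_right _ _
  rw [← cs_trunc PowerSeries.X M I J hlm]
  have h1 : PowerSeries.coeff d ((1 - PowerSeries.X) ^ (freeV I J).card *
      gf (fun i => α₀ i) {u | CellS M I J u (dot u α₀)} l) =
      PowerSeries.coeff d ((1 - PowerSeries.X) ^ (freeV I J).card * Gm M I J l m) := by
    rw [PowerSeries.coeff_mul, PowerSeries.coeff_mul]
    refine Finset.sum_congr rfl fun p hp => ?_
    rw [Finset.HasAntidiagonal.mem_antidiagonal] at hp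
    rw [coeff_gf hα₀ l m p.2 (by omega)]
  rw [h1]
  unfold cs Gm
  rw [Finset.mul_sum, Finset.mul_sum, map_sum, map_sum]
  refine Finset.sum_congr rfl fun u _ => ?_
  by_cases hu : CellS M I J (fun i => (u i : ℕ)) l
  swap
  · rw [if_neg hu, if_neg (fun h => hu h.1), mul_zero, mul_zero]
  rw [if_pos hu]
  -- distribute the powers over the free coordinates
  have hpow : ∀ y : PowerSeries ℤ, y ^ (freeV I J).card =
      ∏ i, if i ∈ freeV I J then y else 1 := by
    intro y
    rw [Finset.prod_ite_mem, Finset.univ_inter, Finset.prod_const]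
  have hX : (PowerSeries.X : PowerSeries ℤ) ^ (freeV I J).card *
      ∏ i, wt PowerSeries.X I J m i (u i) =
      ∏ i, (if i ∈ freeV I J then (if (u i : ℕ) ≤ m then
        (1 - PowerSeries.X) * PowerSeries.X ^ (u i : ℕ) else PowerSeries.X ^ (m + 1))
        else PowerSeries.X ^ (u i : ℕ)) := by
    rw [hpow, ← Finset.prod_mul_distrib]
    refine Finset.prod_congr rfl fun i _ => ?_
    unfold wt
    by_cases hi : i ∈ freeV I J
    · rw [if_pos hi, if_pos hi, if_pos hi]
      by_cases him : (u i : ℕ) ≤ m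
      · rw [if_pos him, if_pos him]
        have h2 := pos_of_free hu hi
        obtain ⟨w, hw⟩ : ∃ w, (u i : ℕ) = w + 1 := ⟨(u i : ℕ) - 1, by omega⟩
        rw [hw, Nat.add_sub_cancel]
        ring
      · rw [if_neg him, if_neg him]
        ring
    · rw [if_neg hi, if_neg hi, if_neg hi, one_mul]
  rw [hX]
  by_cases hall : ∀ i, (u i : ℕ) ≤ m
  · rw [if_pos ⟨hu, hall⟩, hpow, ← Finset.prod_pow_eq_pow_sum, ← Finset.prod_mul_distrib]
    congr 1
    refine Finset.prod_congr rfl fun i _ => ?_
    by_cases hi : i ∈ freeV I J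
    · rw [if_pos hi, if_pos hi, if_pos (hall i)]
    · rw [if_neg hi, if_neg hi, one_mul]
  · rw [if_neg (fun h => hall h.2), mul_zero, map_zero]
    push Not at hall
    obtain ⟨i, hi⟩ := hall
    have hdvd : (PowerSeries.X : PowerSeries ℤ) ^ (m + 1) ∣
        ∏ i, (if i ∈ freeV I J then (if (u i : ℕ) ≤ m then
          (1 - PowerSeries.X) * PowerSeries.X ^ (u i : ℕ) else PowerSeries.X ^ (m + 1))
          else PowerSeries.X ^ (u i : ℕ)) := by
      refine dvd_trans ?_ (Finset.dvd_prod_of_mem _ (Finset.mem_univ i))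
      by_cases hf : i ∈ freeV I J
      · rw [if_pos hf, if_neg (by omega)]
      · rw [if_neg hf]
        exact pow_dvd_pow _ (by omega)
    exact PowerSeries.X_pow_dvd_iff.1 hdvd d (by omega)

/-- Module CONEF. -/
theorem coneF (hG : ConeGStmt) : ConeStmt := by
  classical
  intro σ _ R _ L M I J
  by_cases hI : I.Nonempty
  swap
  · refine .fin _ 0 fun l _ => ?_
    unfold coneSum
    refine Finset.sum_eq_zero fun u _ => ?_
    rw [if_neg (fun h => hI h.ne)]
  obtain ⟨α₀, hα₀⟩ := hI
  have h1 := RQ_smul ((1 - PowerSeries.X) ^ (freeV I J).card) (hG σ M I J α₀ hα₀)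
  have h2 : RQ (PowerSeries.X : PowerSeries ℤ) (steps (slopes M))
      (fun l => cs PowerSeries.X M I J l l) := by
    refine RQ_cancel (PowerSeries.X ^ (freeV I J).card) (fun x hx => ?_) h1
      fun l => (main_identity hα₀ l).symm
    rcases mul_eq_zero.1 hx with h | h
    · exact absurd h (pow_ne_zero _ PowerSeries.X_ne_zero)
    · exact h
  have h3 : RQ (Polynomial.X : Polynomial ℤ) (steps (slopes M))
      (fun l => cs Polynomial.X M I J l l) := by
    refine RQ_of_inj (Polynomial.coeToPowerSeries.ringHom)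
      (fun p q h => Polynomial.coe_injective ℤ (by simpa using h)) h2 ?_ fun l => ?_
    · simp
    · rw [cs_map]
      simp
  have h4 := RQ_map (Polynomial.eval₂RingHom (Int.castRingHom R) (Li L)) h3
  refine (RQ_toRP L ?_ h4).congr fun l => ?_
  · simp
  · rw [coneSum_eq_cs, cs_map]
    simp

end Pool.Agent.Helper30_Simp.H32
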