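import Pool.Agent.Helper30_Simp.Stmts

/-!
# Module CONEG: rationality of the generating function of a cell
-/

set_option autoImplicit false
set_option linter.unusedSectionVars false

namespace Pool.Agent.Helper30_Simp.H32

open Finset Pool.Agent.Helper6_Mono

variable {σ : Type} [Fintype σ]

/-- the rows -/
def row (M : Finset (σ →₀ ℕ)) (α₀ : σ →₀ ℕ) [DecidableEq σ] : σ ⊕ M → σ → ℤ
  | Sum.inl i => fun j => if j = i then 1 else 0
  | Sum.inr β => fun j => (β.1 j : ℤ) - (α₀ j : ℤ)

theorem row_inl (M : Finset (σ →₀ ℕ)) (α₀ : σ →₀ ℕ) [DecidableEq σ] (i : σ) (u : σ → ℕ) :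
    ∑ j, row M α₀ (Sum.inl i) j * (u j : ℤ) = u i := by
  unfold row
  simp

theorem row_inr (M : Finset (σ →₀ ℕ)) (α₀ : σ →₀ ℕ) [DecidableEq σ] (β : M) (u : σ → ℕ) :
    ∑ j, row M α₀ (Sum.inr β) j * (u j : ℤ) = (dot u β.1 : ℕ) - (dot u α₀ : ℕ) := by
  unfold row dot
  push_cast
  rw [← Finset.sum_sub_distrib]
  refine Finset.sum_congr rfl fun j _ => ?_
  ring

/-- Module CONEG. -/
theorem coneG (hpoly : PolyRStmt) (hext : ExtStmt) : ConeGStmt := by
  classical
  intro σ _ M I J α₀ hα₀
  by_cases hIM : I ⊆ M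
  swap
  · refine .fin _ 0 fun m _ => ?_
    ext d
    unfold gf
    rw [PowerSeries.coeff_mk, map_zero]
    have : IsEmpty {u : σ → ℕ // u ∈ {u : σ → ℕ | CellS M I J u (dot u α₀)} ∧
        ∑ i, α₀ i * u i = m ∧ ∑ i, u i = d} := ⟨fun u => hIM u.2.1.sub⟩
    rw [Nat.card_of_isEmpty]
    rfl
  have hα₀M : α₀ ∈ M := hIM hα₀
  set E : Set (σ ⊕ M) := {r | match r with
    | Sum.inl i => i ∈ J
    | Sum.inr β => β.1 ∈ I} with hE
  have hEl : ∀ i, Sum.inl i ∈ E ↔ i ∈ J := fun i => Iff.rfl
  have hEr : ∀ β : M, Sum.inr β ∈ E ↔ β.1 ∈ I := fun β => Iff.rfl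
  set b : σ ⊕ M → ℤ := fun r => if r ∈ E then 0 else 1 with hb
  have hset : {u : σ → ℕ | CellS M I J u (dot u α₀)} = poly (row M α₀) E b := by
    ext u
    constructor
    · intro h r
      rcases r with i | β
      · rw [row_inl]
        refine ⟨fun hr => ?_, fun hr => ?_⟩
        · rw [hb]
          simp only [if_pos hr]
          rw [(h.zero i).2 ((hEl i).1 hr)]
          rfl
        · rw [hb]
          simp only [if_neg hr]
          have := (h.zero i).not.2 (fun h' => hr ((hEl i).2 h'))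
          omega
      · rw [row_inr]
        refine ⟨fun hr => ?_, fun hr => ?_⟩
        · rw [hb]
          simp only [if_pos hr]
          rw [h.eq β.1 ((hEr β).1 hr)]
          ring
        · rw [hb]
          simp only [if_neg hr]
          have := h.lt β.1 β.2 (fun h' => hr ((hEr β).2 h'))
          omega
    · intro h
      refine ⟨fun i => ?_, hIM, ⟨α₀, hα₀⟩, fun α hα => ?_, fun β hβ hβI => ?_⟩
      · have h1 := h (Sum.inl i)
        rw [row_inl] at h1
        constructor
        · intro hi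
          by_contra hJ
          have h2 := h1.2 hJ
          rw [hb] at h2
          have h3 : ¬ (Sum.inl i : σ ⊕ M) ∈ E := hJ
          simp only [if_neg h3] at h2
          omega
        · intro hJ
          have h2 := h1.1 hJ
          rw [hb] at h2
          have h3 : (Sum.inl i : σ ⊕ M) ∈ E := hJ
          simp only [if_pos h3] at h2
          omega
      · have h1 := (h (Sum.inr ⟨α, hIM hα⟩)).1 hα
        rw [row_inr, hb] at h1
        have h3 : (Sum.inr ⟨α, hIM hα⟩ : σ ⊕ M) ∈ E := hα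
        simp only [if_pos h3] at h1
        omega
      · have h3 : ¬ (Sum.inr ⟨β, hβ⟩ : σ ⊕ M) ∈ E := hβI
        have h1 := (h (Sum.inr ⟨β, hβ⟩)).2 h3
        rw [row_inr, hb] at h1
        simp only [if_neg h3] at h1
        omega
  rw [hset]
  refine hpoly σ (σ ⊕ M) (row M α₀) (fun i => α₀ i) (steps (slopes M)) E b ?_ ?_
  · intro i
    refine ⟨Sum.inl i, ?_, ?_, ?_⟩
    · rw [hb]
      dsimp only
      split_ifs <;> norm_num
    · unfold row
      simp
    · intro j hj
      unfold row
      simp [hj]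
  · intro E' hEE' ⟨u, hu, hu0⟩
    set S : Set σ := {i | Sum.inl i ∈ E'} with hS
    set T : Set (σ →₀ ℕ) := {α | ∃ h : α ∈ M, Sum.inr ⟨α, h⟩ ∈ E'} with hT
    have hto : ∀ κ : σ → ℕ, κ ∈ poly (row M α₀) E' 0 ↔ InCone M α₀ S T κ := by
      intro κ
      constructor
      · intro h
        refine ⟨fun i hi => ?_, ?_, fun α hα => ?_⟩
        · have h1 := (h (Sum.inl i)).1 hi
          rw [row_inl, Pi.zero_apply] at h1
          omega
        · rintro α ⟨hα, hα'⟩
          have h1 := (h (Sum.inr ⟨α, hα⟩)).1 hα'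
          rw [row_inr] at h1
          simp only [Pi.zero_apply] at h1
          omega
        · by_cases hr : Sum.inr ⟨α, hα⟩ ∈ E'
          · have h1 := (h (Sum.inr ⟨α, hα⟩)).1 hr
            rw [row_inr] at h1
            simp only [Pi.zero_apply] at h1
            omega
          · have h1 := (h (Sum.inr ⟨α, hα⟩)).2 hr
            rw [row_inr] at h1
            simp only [Pi.zero_apply] at h1
            omega
      · rintro ⟨h1, h2, h3⟩ r
        rcases r with i | β
        · rw [row_inl]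
          refine ⟨fun hr => ?_, fun _ => ?_⟩
          · rw [h1 i hr]; rfl
          · simp
        · rw [row_inr]
          refine ⟨fun hr => ?_, fun _ => ?_⟩
          · rw [h2 β.1 ⟨β.2, hr⟩]
            simp
          · have := h3 β.1 β.2
            simp only [Pi.zero_apply]
            omega
    obtain ⟨κ, hκ0, hκC, hκ⟩ := hext σ M α₀ hα₀M S T (fun α hα => hα.1) ⟨u, hu0, (hto u).1 hu⟩
    refine ⟨κ, (hto κ).2 hκC, hκ0, ?_⟩
    have hdot : ∑ i, α₀ i * κ i = dot κ α₀ := by
      unfold dot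
      refine Finset.sum_congr rfl fun i _ => ?_
      rw [mul_comm]
      rfl
    rw [hdot]
    rcases hκ with h | h
    · exact Or.inl h
    · refine Or.inr ⟨h.1 α₀ hα₀M, h.1 α₀ hα₀M, κ, h, α₀, ⟨hα₀M, fun β hβ => hκC.2.2 β hβ⟩, rfl⟩

end Pool.Agent.Helper30_Simp.H32
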