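import Pool.Agent.Helper30_Simp.Stmts

/-!
# Module EXT: facet vectors in cones
-/

set_option autoImplicit false

namespace Pool.Agent.Helper30_Simp.H32

open Finset

section lin

variable {σ ρ : Type} [Fintype σ] [Fintype ρ]

/-- a nonzero vector in a rational cone with as many tight conditions as possible -/
theorem exists_extremal (l : ρ → (σ → ℤ) →ₗ[ℤ] ℤ) (E : Set ρ) (g : (σ → ℤ) →ₗ[ℤ] ℤ)
    (hinj : ∀ v, (∀ r, l r v = 0) → v = 0)
    (hpos : ∀ u, u ≠ 0 → (∀ r, 0 ≤ l r u) → (∀ r ∈ E, l r u = 0) → 0 < g u)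
    (h0 : ∃ u : σ → ℤ, u ≠ 0 ∧ (∀ r, 0 ≤ l r u) ∧ ∀ r ∈ E, l r u = 0) :
    ∃ κ : σ → ℤ, κ ≠ 0 ∧ (∀ r, 0 ≤ l r κ) ∧ (∀ r ∈ E, l r κ = 0) ∧
      ∀ v, g v = 0 → (∀ r, l r κ = 0 → l r v = 0) → v = 0 := by
  classical
  let C : Set (σ → ℤ) := {u | u ≠ 0 ∧ (∀ r, 0 ≤ l r u) ∧ ∀ r ∈ E, l r u = 0}
  let f : (σ → ℤ) → ℕ := fun u => (univ.filter fun r => l r u ≠ 0).card
  have hC : C.Nonempty := h0
  obtain ⟨κ, hκ, hmin⟩ : ∃ κ ∈ C, ∀ u ∈ C, f κ ≤ f u :=
    ⟨Function.argminOn f C hC, Function.argminOn_mem f C hC,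
      fun u hu => Function.argminOn_le f C hu⟩
  refine ⟨κ, hκ.1, hκ.2.1, hκ.2.2, fun v hv ht => ?_⟩
  by_contra hv0
  obtain ⟨v, hv, ht, r0, hr0⟩ : ∃ v, g v = 0 ∧ (∀ r, l r κ = 0 → l r v = 0) ∧
      ∃ r, l r v < 0 := by
    obtain ⟨r, hr⟩ : ∃ r, l r v ≠ 0 := by
      by_contra h
      push Not at h
      exact hv0 (hinj v h)
    rcases lt_or_gt_of_ne hr with h | h
    · exact ⟨v, hv, ht, r, h⟩
    · refine ⟨-v, by rw [map_neg, hv, neg_zero], fun s hs => by rw [map_neg, ht s hs, neg_zero],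
        r, ?_⟩
      rw [map_neg]
      omega
  obtain ⟨r, hr, hrmin⟩ := Finset.exists_min_image (univ.filter fun r => l r v < 0)
    (fun r => (l r κ : ℚ) / (-(l r v) : ℤ)) ⟨r0, by simpa using hr0⟩
  have hrv : l r v < 0 := by simpa using hr
  have hrκ : 0 < l r κ := by
    rcases (hκ.2.1 r).lt_or_eq with h | h
    · exact h
    · exfalso
      have := ht r h.symm
      omega
  -- the new vector
  set w : σ → ℤ := (-(l r v)) • κ + (l r κ) • v with hw
  have hlw : ∀ s, l s w = (-(l r v)) * l s κ + (l r κ) * l s v := by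
    intro s
    rw [hw, map_add, map_smul, map_smul, smul_eq_mul, smul_eq_mul]
  have hwC : w ∈ C := by
    refine ⟨?_, fun s => ?_, fun s hs => ?_⟩
    · intro h
      have h1 : g w = (-(l r v)) * g κ := by
        rw [hw, map_add, map_smul, map_smul, smul_eq_mul, smul_eq_mul, hv, mul_zero, add_zero]
      rw [h, map_zero] at h1
      have h2 := hpos κ hκ.1 hκ.2.1 hκ.2.2
      have h3 : 0 < (-(l r v)) * g κ := mul_pos (by omega) h2
      omega
    · rw [hlw]
      rcases le_or_gt 0 (l s v) with h | h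
      · have h1 := hκ.2.1 s
        have h2 : 0 ≤ (-(l r v)) * l s κ := mul_nonneg (by omega) h1
        have h3 : 0 ≤ (l r κ) * l s v := mul_nonneg hrκ.le h
        omega
      · have h1 := hrmin s (by simpa using h)
        rw [div_le_div_iff₀ (by exact_mod_cast (by omega : (0 : ℤ) < -(l r v)))
          (by exact_mod_cast (by omega : (0 : ℤ) < -(l s v)))] at h1
        have h2 : l r κ * (-(l s v)) ≤ l s κ * (-(l r v)) := by exact_mod_cast h1
        nlinarith
    · rw [hlw, hκ.2.2 s hs, ht s (hκ.2.2 s hs)]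
      ring
  have hlt : f w < f κ := by
    refine Finset.card_lt_card ⟨fun s hs => ?_, fun hsub => ?_⟩
    · simp only [Finset.mem_filter, Finset.mem_univ, true_and] at hs ⊢
      intro h
      apply hs
      rw [hlw, h, ht s h]
      ring
    · have h1 : r ∈ univ.filter fun s => l s κ ≠ 0 := by
        simp only [Finset.mem_filter, Finset.mem_univ, true_and]
        omega
      have h2 := hsub h1
      simp only [Finset.mem_filter, Finset.mem_univ, true_and] at h2
      apply h2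
      rw [hlw]
      ring
  exact absurd (hmin w hwC) (by omega)

/-- clearing denominators -/
theorem exists_int (v : σ → ℚ) : ∃ (D : ℤ) (w : σ → ℤ), D ≠ 0 ∧ ∀ i, (w i : ℚ) = D * v i := by
  classical
  refine ⟨∏ i, ((v i).den : ℤ), fun i => (v i).num * ∏ j ∈ univ.erase i, ((v j).den : ℤ), ?_, ?_⟩
  · exact Finset.prod_ne_zero_iff.2 fun i _ => by exact_mod_cast (v i).den_ne_zero
  · intro i
    have h1 : (∏ j, ((v j).den : ℤ)) = (v i).den * ∏ j ∈ univ.erase i, ((v j).den : ℤ) :=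
      (Finset.mul_prod_erase univ (fun j => ((v j).den : ℤ)) (Finset.mem_univ i)).symm
    rw [h1]
    push_cast
    have h2 : (v i) * ((v i).den : ℚ) = (v i).num := Rat.mul_den_eq_num (v i)
    rw [← h2]
    ring

end lin

variable {σ : Type} [Fintype σ]

/-- the dot product with an exponent vector -/
def dotL (α : σ →₀ ℕ) : (σ → ℤ) →ₗ[ℤ] ℤ :=
  ∑ i, (α i : ℤ) • LinearMap.proj i

theorem dotL_apply (α : σ →₀ ℕ) (u : σ → ℤ) : dotL α u = ∑ i, (α i : ℤ) * u i := by
  unfold dotL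
  rw [LinearMap.sum_apply]
  rfl

theorem dotL_nat (α : σ →₀ ℕ) (u : σ → ℕ) : dotL α (fun i => (u i : ℤ)) = (dot u α : ℕ) := by
  rw [dotL_apply, dot]
  push_cast
  exact Finset.sum_congr rfl fun i _ => mul_comm _ _

/-- the conditions -/
def cond (M : Finset (σ →₀ ℕ)) (α₀ : σ →₀ ℕ) : σ ⊕ M → (σ → ℤ) →ₗ[ℤ] ℤ
  | Sum.inl i => LinearMap.proj i
  | Sum.inr β => dotL β.1 - dotL α₀

/-- Module EXT. -/
theorem ext : ExtStmt := by
  classical
  intro σ _ M α₀ hα₀ S T hT ⟨u, hu0, hu⟩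
  by_cases hpos : ∀ κ : σ → ℕ, κ ≠ 0 → InCone M α₀ S T κ → 0 < dot κ α₀
  swap
  · push Not at hpos
    obtain ⟨κ, h1, h2, h3⟩ := hpos
    exact ⟨κ, h1, h2, Or.inl (Nat.le_zero.1 h3)⟩
  set E : Set (σ ⊕ M) := {r | match r with
    | Sum.inl i => i ∈ S
    | Sum.inr β => β.1 ∈ T} with hE
  -- translation between natural numbers and integers
  have hto : ∀ κ : σ → ℕ, InCone M α₀ S T κ ↔
      (∀ r, 0 ≤ cond M α₀ r fun i => (κ i : ℤ)) ∧ ∀ r ∈ E, cond M α₀ r (fun i => (κ i : ℤ)) = 0 := by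
    intro κ
    have hl : ∀ i, cond M α₀ (Sum.inl i) (fun i => (κ i : ℤ)) = κ i := fun i => rfl
    have hr : ∀ β : M, cond M α₀ (Sum.inr β) (fun i => (κ i : ℤ)) =
        (dot κ β.1 : ℕ) - (dot κ α₀ : ℕ) := by
      intro β
      show (dotL β.1 - dotL α₀) _ = _
      rw [LinearMap.sub_apply, dotL_nat, dotL_nat]
    constructor
    · rintro ⟨h1, h2, h3⟩
      refine ⟨fun r => ?_, fun r hr' => ?_⟩
      · rcases r with i | β
        · rw [hl]; positivity
        · rw [hr]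
          have := h3 β.1 β.2
          omega
      · rcases r with i | β
        · rw [hl, h1 i hr']; rfl
        · rw [hr, h2 β.1 hr']; ring
    · rintro ⟨h1, h2⟩
      refine ⟨fun i hi => ?_, fun α hα => ?_, fun α hα => ?_⟩
      · have := h2 (Sum.inl i) hi
        rw [hl] at this
        exact_mod_cast this
      · have := h2 (Sum.inr ⟨α, hT hα⟩) hα
        rw [hr] at this
        simp only at this
        omega
      · have := h1 (Sum.inr ⟨α, hα⟩)
        rw [hr] at this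
        simp only at this
        omega
  have hnat : ∀ w : σ → ℤ, (∀ r, 0 ≤ cond M α₀ r w) → ∃ κ : σ → ℕ, w = fun i => (κ i : ℤ) := by
    intro w hw
    refine ⟨fun i => (w i).toNat, funext fun i => ?_⟩
    have : 0 ≤ w i := hw (Sum.inl i)
    exact (Int.toNat_of_nonneg this).symm
  obtain ⟨w, hw0, hw1, hw2, hw3⟩ := exists_extremal (cond M α₀) E (dotL α₀)
    (fun v hv => funext fun i => hv (Sum.inl i))
    (by
      intro v hv0 hv1 hv2
      obtain ⟨κ, rfl⟩ := hnat v hv1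
      rw [dotL_nat]
      have hκ0 : κ ≠ 0 := by
        rintro rfl
        exact hv0 (by funext i; simp)
      exact_mod_cast hpos κ hκ0 ((hto κ).2 ⟨hv1, hv2⟩))
    ⟨fun i => (u i : ℤ), by
      intro h
      exact hu0 (funext fun i => Int.natCast_eq_zero.1 (congrFun h i)), ((hto u).1 hu).1,
        ((hto u).1 hu).2⟩
  obtain ⟨κ, rfl⟩ := hnat w hw1
  have hκ0 : κ ≠ 0 := by
    rintro rfl
    exact hw0 (by funext i; simp)
  have hκC : InCone M α₀ S T κ := (hto κ).2 ⟨hw1, hw2⟩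
  have hκpos := hpos κ hκ0 hκC
  have hface : ∀ β, β ∈ face M κ ↔ β ∈ M ∧ dot κ β = dot κ α₀ := by
    intro β
    constructor
    · rintro ⟨h1, h2⟩
      exact ⟨h1, le_antisymm (h2 α₀ hα₀) (hκC.2.2 β h1)⟩
    · rintro ⟨h1, h2⟩
      exact ⟨h1, fun γ hγ => h2 ▸ hκC.2.2 γ hγ⟩
  refine ⟨κ, hκ0, hκC, Or.inr ⟨fun α hα => hκpos.trans_le (hκC.2.2 α hα), ?_⟩⟩
  by_contra hspan
  obtain ⟨φ, hφ0, hφ⟩ := Submodule.exists_le_ker_of_lt_top _ (lt_top_iff_ne_top.2 hspan)
  have hφsum : ∀ x : σ → ℚ, φ x = ∑ i, x i * φ (Pi.single i 1) := by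
    intro x
    conv_lhs => rw [← Finset.univ_sum_single x, map_sum]
    refine Finset.sum_congr rfl fun i _ => ?_
    rw [← smul_eq_mul, ← map_smul]
    congr 1
    rw [← Pi.single_smul, smul_eq_mul, mul_one]
  obtain ⟨D, v, hD, hv⟩ := exists_int fun i => φ (Pi.single i 1)
  have hface0 : ∀ α ∈ face M κ, dotL α v = 0 := by
    intro α hα
    have h1 : (fun i => (α i : ℚ)) ∈ LinearMap.ker φ :=
      hφ (Submodule.subset_span (Or.inl ⟨α, hα, rfl⟩))
    rw [LinearMap.mem_ker, hφsum] at h1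
    have h2 : ((dotL α v : ℤ) : ℚ) = 0 := by
      rw [dotL_apply]
      push_cast
      have h3 : ∑ i, (α i : ℚ) * (v i : ℚ) = D * ∑ i, (α i : ℚ) * φ (Pi.single i 1) := by
        rw [Finset.mul_sum]
        refine Finset.sum_congr rfl fun i _ => ?_
        rw [hv i]
        ring
      rw [h3, h1, mul_zero]
    exact_mod_cast h2
  have hv0 : v = 0 := by
    refine hw3 v (hface0 α₀ ((hface α₀).2 ⟨hα₀, rfl⟩)) fun r hr => ?_
    rcases r with i | β
    · have hi : κ i = 0 := Int.natCast_eq_zero.1 hr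
      have h1 : (Pi.single i 1 : σ → ℚ) ∈ LinearMap.ker φ := by
        refine hφ (Submodule.subset_span (Or.inr ⟨i, hi, Pi.single_eq_same _ _, fun j hj => ?_⟩))
        exact Pi.single_eq_of_ne hj _
      rw [LinearMap.mem_ker] at h1
      have h2 := hv i
      rw [h1, mul_zero] at h2
      exact_mod_cast h2
    · have h1 : cond M α₀ (Sum.inr β) (fun i => (κ i : ℤ)) =
          (dot κ β.1 : ℕ) - (dot κ α₀ : ℕ) := by
        show (dotL β.1 - dotL α₀) _ = _
        rw [LinearMap.sub_apply, dotL_nat, dotL_nat]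
      rw [h1] at hr
      have h2 : β.1 ∈ face M κ := (hface _).2 ⟨β.2, by omega⟩
      show (dotL β.1 - dotL α₀) v = 0
      rw [LinearMap.sub_apply, hface0 _ h2, hface0 _ ((hface α₀).2 ⟨hα₀, rfl⟩), sub_zero]
  apply hφ0
  refine LinearMap.ext fun x => ?_
  rw [hφsum, LinearMap.zero_apply]
  refine Finset.sum_eq_zero fun i _ => ?_
  have h1 := hv i
  rw [hv0] at h1
  simp only [Pi.zero_apply, Int.cast_zero] at h1
  have h2 : φ (Pi.single i 1) = 0 := by
    rcases mul_eq_zero.1 h1.symm with h | h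
    · exact absurd (by exact_mod_cast h) hD
    · exact h
  rw [h2, mul_zero]

end Pool.Agent.Helper30_Simp.H32
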