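import Pool.Agent.Helper30_Simp.Stmts

/-!
# Module TRUNC: the truncation does not matter
-/

set_option autoImplicit false
set_option linter.unusedSectionVars false

namespace Pool.Agent.Helper30_Simp.H32

open Finset Pool.Agent.Helper6_Mono

variable {σ : Type} [Fintype σ] {R : Type*} [CommRing R]

open scoped Classical in
/-- the weight of one coordinate, with `x` in place of the inverse of the class of the line -/
noncomputable def wt (x : R) (I : Finset (σ →₀ ℕ)) (J : Finset σ) (m : ℕ) (i : σ) (v : ℕ) : R :=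
  if i ∈ freeV I J then (if v ≤ m then x ^ (v - 1) - x ^ v else x ^ m) else x ^ v

open scoped Classical in
/-- the lattice point sum with `x` in place of the inverse of the class of the line -/
noncomputable def cs (x : R) (M I : Finset (σ →₀ ℕ)) (J : Finset σ) (l m : ℕ) : R :=
  ∑ u : σ → Fin (m + 2), if CellS M I J (fun i => (u i : ℕ)) l then
    ∏ i, wt x I J m i (u i) else 0

theorem mem_freeV {I : Finset (σ →₀ ℕ)} {J : Finset σ} {i : σ} :
    i ∈ freeV I J ↔ i ∉ J ∧ ∀ α ∈ I, α i = 0 := by
  classical
  unfold freeV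
  simp

theorem dot_nat (u : σ → ℕ) (α : σ →₀ ℕ) : dot u α = ∑ i, u i * α i := by
  unfold dot
  simp

theorem le_dot (u : σ → ℕ) (α : σ →₀ ℕ) (i : σ) (h : α i ≠ 0) : u i ≤ dot u α := by
  rw [dot_nat]
  refine le_trans ?_ (Finset.single_le_sum (f := fun i => u i * α i)
    (fun j _ => Nat.zero_le _) (Finset.mem_univ i))
  exact Nat.le_mul_of_pos_right _ (Nat.pos_of_ne_zero h)

/-- the coordinates which are not free are at most the value -/
theorem le_of_not_free {M I : Finset (σ →₀ ℕ)} {J : Finset σ} {u : σ → ℕ} {l : ℕ}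
    (h : CellS M I J u l) {i : σ} (hi : i ∉ freeV I J) : u i ≤ l := by
  rw [mem_freeV] at hi
  push Not at hi
  by_cases hJ : i ∈ J
  · rw [(h.zero i).2 hJ]
    exact Nat.zero_le _
  · obtain ⟨α, hα, hα0⟩ := hi hJ
    rw [← h.eq α hα]
    exact le_dot u α i hα0

theorem pos_of_free {M I : Finset (σ →₀ ℕ)} {J : Finset σ} {u : σ → ℕ} {l : ℕ}
    (h : CellS M I J u l) {i : σ} (hi : i ∈ freeV I J) : 1 ≤ u i := by
  rw [mem_freeV] at hi
  have := (h.zero i).not.2 hi.1
  omega

/-- a cell does not see the sizes of the free coordinates above the value -/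
theorem cell_of_agree {M I : Finset (σ →₀ ℕ)} {J : Finset σ} {u v : σ → ℕ} {l : ℕ}
    (hu : CellS M I J u l) (h1 : ∀ i, i ∉ freeV I J → v i = u i)
    (h2 : ∀ i, v i = u i ∨ (l < v i ∧ l < u i)) : CellS M I J v l := by
  refine ⟨fun i => ?_, hu.sub, hu.ne, fun α hα => ?_, fun β hβ hβI => ?_⟩
  · rw [← hu.zero i]
    rcases h2 i with h | h <;> omega
  · rw [← hu.eq α hα, dot_nat, dot_nat]
    refine Finset.sum_congr rfl fun i _ => ?_
    by_cases hi : i ∈ freeV I J
    · rw [(mem_freeV.1 hi).2 α hα, mul_zero, mul_zero]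
    · rw [h1 i hi]
  · by_cases hex : ∃ i, β i ≠ 0 ∧ l < v i
    · obtain ⟨i, hi, hli⟩ := hex
      exact hli.trans_le (le_dot v β i hi)
    · push Not at hex
      have h3 := hu.lt β hβ hβI
      have h4 : dot v β = dot u β := by
        rw [dot_nat, dot_nat]
        refine Finset.sum_congr rfl fun i _ => ?_
        by_cases hi : β i = 0
        · rw [hi, mul_zero, mul_zero]
        · rcases h2 i with h | h
          · rw [h]
          · exact absurd (hex i hi) (by omega)
      omega

/-- the truncation of a coordinate -/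
def tr {m : ℕ} (l : ℕ) (w : Fin (m + 2)) : Fin (l + 2) := ⟨min (w : ℕ) (l + 1), by omega⟩

theorem tr_val {m : ℕ} (l : ℕ) (w : Fin (m + 2)) : ((tr l w : Fin (l + 2)) : ℕ) = min (w : ℕ) (l + 1) :=
  rfl

theorem cell_tr (M I : Finset (σ →₀ ℕ)) (J : Finset σ) {l m : ℕ} (u : σ → Fin (m + 2)) :
    CellS M I J (fun i => (u i : ℕ)) l ↔ CellS M I J (fun i => (tr l (u i) : ℕ)) l := by
  constructor
  · intro h
    refine cell_of_agree h (fun i hi => ?_) fun i => ?_
    · have := le_of_not_free h hi
      simp only [tr_val] at this ⊢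
      omega
    · simp only [tr_val]
      omega
  · intro h
    refine cell_of_agree h (fun i hi => ?_) fun i => ?_
    · have := le_of_not_free h hi
      simp only [tr_val] at this ⊢
      omega
    · simp only [tr_val]
      omega

/-- the sum over one fibre -/
theorem fibre_sum (x : R) {M I : Finset (σ →₀ ℕ)} {J : Finset σ} {l m : ℕ} (hlm : l ≤ m)
    {v : σ → Fin (l + 2)} (hv : CellS M I J (fun i => (v i : ℕ)) l) (i : σ) :
    ∑ w ∈ univ.filter (fun w : Fin (m + 2) => tr l w = v i), wt x I J m i w =
      wt x I J l i (v i) := by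
  classical
  by_cases hle : (v i : ℕ) ≤ l
  · have h1 : univ.filter (fun w : Fin (m + 2) => tr l w = v i) =
        {⟨v i, by omega⟩} := by
      ext w
      simp only [Finset.mem_filter, Finset.mem_univ, true_and, Finset.mem_singleton, Fin.ext_iff,
        tr_val]
      omega
    rw [h1, Finset.sum_singleton]
    unfold wt
    simp only [if_pos hle, if_pos (hle.trans hlm)]
  · have hvi : (v i : ℕ) = l + 1 := by
      have := (v i).2
      omega
    have hfree : i ∈ freeV I J := by
      by_contra h
      exact hle (le_of_not_free hv h)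
    have h2 : ∑ w ∈ univ.filter (fun w : Fin (m + 2) => tr l w = v i), wt x I J m i w =
        ∑ w ∈ Finset.Ico (l + 1) (m + 2), wt x I J m i w := by
      have h3 : ∀ w : Fin (m + 2), tr l w = v i ↔ l + 1 ≤ (w : ℕ) := by
        intro w
        rw [Fin.ext_iff, tr_val]
        omega
      simp only [h3]
      rw [Finset.sum_filter, Fin.sum_univ_eq_sum_range
        (fun w => if l + 1 ≤ w then wt x I J m i w else 0) (m + 2), ← Finset.sum_filter]
      refine Finset.sum_congr ?_ fun _ _ => rfl
      ext w
      simp only [Finset.mem_filter, Finset.mem_range, Finset.mem_Ico]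
      omega
    rw [h2, Finset.sum_Ico_succ_top (by omega)]
    have h4 : ∑ w ∈ Finset.Ico (l + 1) (m + 1), wt x I J m i w =
        ∑ w ∈ Finset.Ico (l + 1) (m + 1), (x ^ (w - 1) - x ^ w) := by
      refine Finset.sum_congr rfl fun w hw => ?_
      rw [Finset.mem_Ico] at hw
      unfold wt
      rw [if_pos hfree, if_pos (by omega)]
    have h5 : ∀ m, l ≤ m → ∑ w ∈ Finset.Ico (l + 1) (m + 1), (x ^ (w - 1) - x ^ w) =
        x ^ l - x ^ m := by
      intro m hm
      induction m, hm using Nat.le_induction with
      | base => simp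
      | succ m hm ih =>
        rw [Finset.sum_Ico_succ_top (by omega), ih, Nat.add_sub_cancel]
        ring
    rw [h4, h5 m hlm]
    unfold wt
    rw [if_pos hfree, if_pos hfree, if_neg (by omega), if_neg (by omega)]
    ring

/-- the truncation does not matter -/
theorem cs_trunc (x : R) (M I : Finset (σ →₀ ℕ)) (J : Finset σ) {l m : ℕ} (hlm : l ≤ m) :
    cs x M I J l m = cs x M I J l l := by
  classical
  unfold cs
  rw [← Finset.sum_fiberwise (s := univ) (g := fun u : σ → Fin (m + 2) => fun i => tr l (u i))]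
  refine Finset.sum_congr rfl fun v _ => ?_
  by_cases hv : CellS M I J (fun i => (v i : ℕ)) l
  · rw [if_pos hv]
    have h1 : ∀ u ∈ univ.filter (fun u : σ → Fin (m + 2) => (fun i => tr l (u i)) = v),
        (if CellS M I J (fun i => (u i : ℕ)) l then ∏ i, wt x I J m i (u i) else 0) =
          ∏ i, wt x I J m i (u i) := by
      intro u hu
      rw [Finset.mem_filter] at hu
      rw [if_pos]
      rw [cell_tr]
      have h2 : ∀ i, tr l (u i) = v i := fun i => congrFun hu.2 i
      simp only [h2]
      exact hv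
    rw [Finset.sum_congr rfl h1]
    have h3 : univ.filter (fun u : σ → Fin (m + 2) => (fun i => tr l (u i)) = v) =
        Fintype.piFinset fun i => univ.filter fun w : Fin (m + 2) => tr l w = v i := by
      ext u
      simp only [Finset.mem_filter, Finset.mem_univ, true_and, Fintype.mem_piFinset, funext_iff]
    rw [h3]
    refine (Finset.prod_univ_sum (fun i => univ.filter fun w : Fin (m + 2) => tr l w = v i)
      (fun i (w : Fin (m + 2)) => wt x I J m i (w : ℕ))).symm.trans ?_
    exact Finset.prod_congr rfl fun i _ => fibre_sum x hlm hv i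
  · rw [if_neg hv]
    refine Finset.sum_eq_zero fun u hu => ?_
    rw [Finset.mem_filter] at hu
    rw [if_neg]
    rw [cell_tr]
    have h2 : ∀ i, tr l (u i) = v i := fun i => congrFun hu.2 i
    simp only [h2]
    exact hv

theorem coneSum_eq_cs (L : Rˣ) (M I : Finset (σ →₀ ℕ)) (J : Finset σ) (l m : ℕ) :
    coneSum L M I J l m = cs (Li L) M I J l m := by
  classical
  unfold coneSum cs
  refine Finset.sum_congr rfl fun u _ => ?_
  by_cases hu : CellS M I J (fun i => (u i : ℕ)) l
  · rw [if_pos hu, if_pos hu]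
    refine Finset.prod_congr rfl fun i _ => ?_
    unfold cw wt
    by_cases hi : i ∈ freeV I J
    · rw [if_pos hi, if_pos hi]
      split_ifs with hm
      · have h1 := pos_of_free hu hi
        obtain ⟨w, hw⟩ : ∃ w, (u i : ℕ) = w + 1 := ⟨(u i : ℕ) - 1, by omega⟩
        rw [hw, Nat.add_sub_cancel, pow_succ]
        have h2 := Li_mul L
        linear_combination (Li L ^ w) * h2
      · rfl
    · rw [if_neg hi, if_neg hi]
  · rw [if_neg hu, if_neg hu]

/-- Module TRUNC. -/
theorem trunc : TruncStmt := by
  intro σ _ R _ L M I J l m hlm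
  rw [coneSum_eq_cs, coneSum_eq_cs, cs_trunc _ M I J hlm]

end Pool.Agent.Helper30_Simp.H32
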